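import Pool.Agent.T9h98.NK.SpecS

/-!
# Project NK (MP_727bc7_co), piece CUB: all corners are right angles, so the polytope is a cube
-/

set_option autoImplicit false

open Set
open scoped RealInnerProductSpace

namespace Pool.Agent.T9h43.NK

open Pool.Agent.T9h98.DC Pool.Agent.T9h44.NK Pool.Agent.T9h98.NK

variable {m : ℕ}

/-- the vertices -/
noncomputable def aa (v : E m) (e : ℝ) (b : OrthonormalBasis (Fin m) ℝ (E m))
    (S : Finset (Fin m)) : E m := v + e • ∑ i ∈ S, b i

/-- the neighbours -/
noncomputable def nb (v : E m) (e : ℝ) (b : OrthonormalBasis (Fin m) ℝ (E m))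
    (S : Finset (Fin m)) (j : Fin m) : E m :=
  aa v e b S + (if j ∈ S then -e else e) • b j

theorem aa_insert (v : E m) (e : ℝ) (b : OrthonormalBasis (Fin m) ℝ (E m))
    {S : Finset (Fin m)} {i : Fin m} (hi : i ∉ S) :
    aa v e b (insert i S) = aa v e b S + e • b i := by
  unfold aa
  rw [Finset.sum_insert hi, smul_add]
  abel

theorem nb_mem (v : E m) (e : ℝ) (b : OrthonormalBasis (Fin m) ℝ (E m))
    (S : Finset (Fin m)) (j : Fin m) : ∃ T, nb v e b S j = aa v e b T := by
  by_cases h : j ∈ S
  · refine ⟨S.erase j, ?_⟩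
    have h1 := aa_insert v e b (Finset.notMem_erase j S)
    rw [Finset.insert_erase h] at h1
    unfold nb
    rw [if_pos h, h1, neg_smul]
    abel
  · exact ⟨insert j S, by unfold nb; rw [if_neg h, aa_insert v e b h]⟩

theorem nb_inj (v : E m) {e : ℝ} (he : 0 < e) (b : OrthonormalBasis (Fin m) ℝ (E m))
    (S : Finset (Fin m)) : Function.Injective (nb v e b S) := by
  intro j k hjk
  by_contra hne
  have h1 : (if j ∈ S then -e else e) • b j = (if k ∈ S then -e else e) • b k := by
    unfold nb at hjk
    exact add_left_cancel hjk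
  have h2 : ⟪(if j ∈ S then -e else e) • b j, b j⟫ = ⟪(if k ∈ S then -e else e) • b k, b j⟫ := by
    rw [h1]
  rw [real_inner_smul_left, real_inner_smul_left, b.inner_eq_one, b.inner_eq_zero (Ne.symm hne)]
    at h2
  split_ifs at h2 <;> linarith

/-- the cube -/
theorem hull (v : E m) {e : ℝ} (he : 0 < e) (b : OrthonormalBasis (Fin m) ℝ (E m)) :
    convexHull ℝ (range (aa v e b)) =
      {x | ∀ i, |⟪x - (v + (e / 2) • ∑ j, b j), b i⟫| ≤ e / 2} := by
  let M : (Fin m → ℝ) →ₗ[ℝ] E m := Fintype.linearCombination ℝ (fun i => b i)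
  let L : (Fin m → ℝ) →ᵃ[ℝ] E m := M.toAffineMap + AffineMap.const ℝ (Fin m → ℝ) v
  have hL : ∀ y, L y = v + ∑ i, y i • b i := by
    intro y
    change M y + v = _
    rw [add_comm]
    rfl
  have hcoord : ∀ (y : Fin m → ℝ) (i : Fin m), ⟪∑ j, y j • b j, b i⟫ = y i := by
    intro y i
    rw [sum_inner, Finset.sum_eq_single i]
    · rw [real_inner_smul_left, b.inner_eq_one, mul_one]
    · intro j _ hj
      rw [real_inner_smul_left, b.inner_eq_zero hj, mul_zero]
    · intro h; exact absurd (Finset.mem_univ i) h
  have h1 : range (aa v e b) = L '' (Set.pi univ fun _ => ({0, e} : Set ℝ)) := by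
    ext x
    constructor
    · rintro ⟨S, rfl⟩
      refine ⟨fun i => if i ∈ S then e else 0, ?_, ?_⟩
      · intro i _
        by_cases h : i ∈ S
        · simp [h]
        · simp [h]
      · rw [hL]
        unfold aa
        congr 1
        rw [Finset.smul_sum]
        simp [ite_smul, Finset.sum_ite_mem]
    · rintro ⟨y, hy, rfl⟩
      refine ⟨Finset.univ.filter fun i => y i = e, ?_⟩
      rw [hL]
      unfold aa
      congr 1
      rw [Finset.smul_sum, Finset.sum_filter]
      apply Finset.sum_congr rfl
      intro i _
      rcases hy i (mem_univ i) with h | h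
      · rw [h, if_neg he.ne, zero_smul]
      · have h' : y i = e := h
        rw [if_pos h', h']
  rw [h1, ← L.image_convexHull, convexHull_pi]
  have h2 : (fun _ : Fin m => convexHull ℝ ({0, e} : Set ℝ)) = fun _ => Icc 0 e := by
    funext _
    rw [convexHull_pair, segment_eq_Icc he.le]
  rw [h2]
  ext x
  constructor
  · rintro ⟨y, hy, rfl⟩ i
    rw [hL]
    have e1 : v + ∑ i, y i • b i - (v + (e / 2) • ∑ j, b j) =
        ∑ i, (y i - e / 2) • b i := by
      simp only [sub_smul, Finset.sum_sub_distrib, Finset.smul_sum]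
      abel
    rw [e1, hcoord]
    have := hy i (mem_univ i)
    rw [abs_le]
    constructor <;> linarith [this.1, this.2]
  · intro hx
    refine ⟨fun i => ⟪x - v, b i⟫, ?_, ?_⟩
    · intro i _
      have h3 := hx i
      have e2 : x - (v + (e / 2) • ∑ j, b j) = (x - v) - ∑ j, (e / 2) • b j := by
        rw [Finset.smul_sum]; abel
      rw [e2, inner_sub_left, hcoord (fun _ => e / 2), abs_le] at h3
      exact ⟨by linarith [h3.1], by linarith [h3.2]⟩
    · rw [hL]
      have e3 := b.sum_repr' (x - v)
      have e4 : ∑ i, ⟪x - v, b i⟫ • b i = x - v := by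
        rw [← e3]
        apply Finset.sum_congr rfl
        intro i _
        rw [e3, real_inner_comm]
      rw [e4]
      abel

theorem cub : S_FACES → S_REL → S_CONN → S_CUB := by
  intro hF hR hC D P e hD hP hloc
  have hFP : FP P := hP.1
  obtain ⟨f1, _, _, _, f5, _, _, _, f9, _⟩ := hF (D + 1) P hFP
  have hne : P.Nonempty := hP.2.mono interior_subset
  obtain ⟨hPP, v, hv⟩ := f5 hne
  have hLv := hloc v hv
  have he := hLv.epos
  -- Uni
  have hU : Uni P 0 e := by
    refine ⟨he, by norm_num, ?_, ?_⟩
    · intro w y hwy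
      exact (hloc w (f9 w y hwy).1).len y hwy
    · intro w y y' hc
      exact ((hloc w (f9 w y hc.1).1).cor y y' hc.1 hc.2.1 hc.2.2.1).2
  -- the basis
  have hfin : {y | Adj P v y}.Finite := Set.finite_of_ncard_ne_zero (by rw [hLv.num]; omega)
  have : Finite {y | Adj P v y} := hfin
  let φ : {y | Adj P v y} ≃ Fin (D + 1) :=
    Finite.equivFinOfCardEq (by rw [Nat.card_coe_set_eq]; exact hLv.num)
  let b0 : Fin (D + 1) → E (D + 1) := fun i => (1 / e) • (((φ.symm i : E (D + 1))) - v)
  have hadj : ∀ i, Adj P v (φ.symm i : E (D + 1)) := fun i => (φ.symm i).2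
  have hon : Orthonormal ℝ b0 := by
    constructor
    · intro i
      change ‖(1 / e) • (((φ.symm i : E (D + 1))) - v)‖ = 1
      rw [norm_smul, hLv.len _ (hadj i), Real.norm_eq_abs, abs_of_pos (by positivity)]
      field_simp
    · intro i j hij
      have hne' : (φ.symm i : E (D + 1)) ≠ (φ.symm j : E (D + 1)) := by
        intro h
        exact hij (φ.symm.injective (Subtype.ext h))
      have := (hLv.cor _ _ (hadj i) (hadj j) hne').2
      change ⟪(1 / e) • (((φ.symm i : E (D + 1))) - v), (1 / e) • (((φ.symm j : E (D + 1))) - v)⟫ = 0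
      rw [real_inner_smul_left, real_inner_smul_right, this]
      ring
  have hsp : ⊤ ≤ Submodule.span ℝ (range b0) := by
    apply (hon.linearIndependent.span_eq_top_of_card_eq_finrank' _).ge
    simp
  let b : OrthonormalBasis (Fin (D + 1)) ℝ (E (D + 1)) := OrthonormalBasis.mk hon hsp
  have hb : ∀ i, b i = (1 / e) • (((φ.symm i : E (D + 1))) - v) := by
    intro i
    change (OrthonormalBasis.mk hon hsp) i = _
    rw [OrthonormalBasis.coe_mk]
  have hb' : ∀ i, (φ.symm i : E (D + 1)) = v + e • b i := by
    intro i
    rw [hb, smul_smul, mul_one_div_cancel he.ne', one_smul]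
    abel
  -- the induction
  have hQ : ∀ S : Finset (Fin (D + 1)), Vx P (aa v e b S) ∧
      range (nb v e b S) = {y | Adj P (aa v e b S) y} := by
    have hcard : ∀ S : Finset (Fin (D + 1)), Vx P (aa v e b S) →
        range (nb v e b S) ⊆ {y | Adj P (aa v e b S) y} →
        range (nb v e b S) = {y | Adj P (aa v e b S) y} := by
      intro S hS hsub
      have hnum := (hloc _ hS).num
      have hfin' : {y | Adj P (aa v e b S) y}.Finite :=
        Set.finite_of_ncard_ne_zero (by rw [hnum]; omega)
      refine Set.eq_of_subset_of_ncard_le hsub ?_ hfin'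
      rw [hnum, ← Nat.card_coe_set_eq, Nat.card_range_of_injective (nb_inj v he b S)]
      simp
    intro S
    induction S using Finset.induction_on with
    | empty =>
      have h0 : aa v e b ∅ = v := by unfold aa; simp
      refine ⟨by rw [h0]; exact hv, ?_⟩
      apply hcard ∅ (by rw [h0]; exact hv)
      rintro _ ⟨j, rfl⟩
      unfold nb
      rw [h0]
      simp only [Finset.notMem_empty, if_false]
      rw [← hb']
      exact hadj j
    | insert i S hi ih =>
      obtain ⟨ih1, ih2⟩ := ih
      have hnb : ∀ j, Adj P (aa v e b S) (nb v e b S j) := by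
        intro j
        have : nb v e b S j ∈ {y | Adj P (aa v e b S) y} := by
          rw [← ih2]; exact mem_range_self j
        exact this
      have hw : nb v e b S i = aa v e b (insert i S) := by
        unfold nb; rw [if_neg hi, aa_insert v e b hi]
      have hvw : Adj P (aa v e b S) (aa v e b (insert i S)) := by
        rw [← hw]; exact hnb i
      obtain ⟨_, g2, g3, _⟩ := f9 _ _ hvw
      refine ⟨g2, hcard _ g2 ?_⟩
      rintro _ ⟨j, rfl⟩
      by_cases hji : j = i
      · subst hji
        have e1 : nb v e b (insert j S) j = aa v e b S := by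
          unfold nb
          rw [if_pos (Finset.mem_insert_self j S), aa_insert v e b hi, neg_smul]
          abel
        rw [e1]
        exact g3
      · have hne' : aa v e b (insert i S) ≠ nb v e b S j := by
          rw [← hw]
          intro h
          exact hji (nb_inj v he b S h).symm
        have hcor := ((hloc _ ih1).cor _ _ hvw (hnb j) hne').1
        have hrel := (hR D P 0 e (by norm_num) hP hU _ _ _ hcor).1
        have e2 : nb v e b S j + ((1 : ℝ) - 2 * 0) • (aa v e b (insert i S) - aa v e b S) =
            nb v e b (insert i S) j := by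
          unfold nb
          have hiff : (j ∈ insert i S) ↔ j ∈ S := by
            rw [Finset.mem_insert]
            constructor
            · rintro (h | h)
              · exact absurd h hji
              · exact h
            · exact Or.inr
          simp only [hiff]
          rw [aa_insert v e b hi]
          simp only [mul_zero, sub_zero, one_smul]
          abel
        rw [e2] at hrel
        exact hrel.2.1
  -- all the vertices
  have hall : ∀ w, Vx P w → w ∈ range (aa v e b) := by
    apply hC D P hP (range (aa v e b))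
    · exact ⟨aa v e b ∅, mem_range_self _, (hQ ∅).1⟩
    · rintro _ ⟨S, rfl⟩ w _ hw
      have : w ∈ range (nb v e b S) := by rw [(hQ S).2]; exact hw
      obtain ⟨j, rfl⟩ := this
      obtain ⟨T, hT⟩ := nb_mem v e b S j
      rw [hT]
      exact mem_range_self T
  have hvert : {w | Vx P w ∧ w ∈ P} = range (aa v e b) := by
    ext w
    constructor
    · exact fun h => hall w h.1
    · rintro ⟨S, rfl⟩
      exact ⟨(hQ S).1, (hQ S).1.2.subset (mem_singleton _)⟩
  have hPh := (f1 P hPP).2
  rw [hvert, hull v he b] at hPh
  exact ⟨v + (e / 2) • ∑ j, b j, e / 2, b, by positivity, hPh⟩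

end Pool.Agent.T9h43.NK
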